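import Mathlib
import Pool.Agent.H23.PhjAmp

theorem Pool.Agent.Results.MP_90b327_co.BelowHalf.result
    (d : ℕ) (hd : 1 ≤ d) (δ : ℝ) (hδ : (2 ^ d - 1 : ℝ) / (2 ^ (d + 1) - 1) < δ) :
    ∃ N₀ : ℕ, ∀ N : ℕ, N₀ ≤ N → ∀ S : Finset (Finset (Fin d → Fin N)),
      δ * (2 : ℝ) ^ (N ^ d) ≤ S.card →
        ∃ A ∈ S, ∃ γ : Finset (Fin N), γ.Nonempty ∧
          Disjoint A (Fintype.piFinset (fun _ : Fin d => γ)) ∧
          A ∪ Fintype.piFinset (fun _ : Fin d => γ) ∈ S :=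
  Pool.Agent.H23.Phj.main d hd δ hδ
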